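import Pool.Agent.Lib.MP_3de3a3_co.DFin

/-!
# Triangulated spheres and manifolds of dimension `d - 1` with `n` facets

The definitions `Pool.TSph.verts`, `Pool.TSph.IsSphere2` are in
`Pool/Agent/Lib/MP_3de3a3_co/Defs.lean`, the definitions `Pool.TSphD.fc`, `Pool.TSphD.lk` in
`Pool/Agent/Lib/MP_3de3a3_co/DDefs.lean` and the definition `Pool.TSphD.IsMfd` in
`Pool/Agent/Lib/MP_3de3a3_co/DFin.lean`.
-/

set_option autoImplicit false

/-- For every `d ≥ 4` there is `C` such that for every `n` there is a set `S` of complexes which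
contains an isomorphic copy of every complex with `n` facets that is `IsMfd d` (in particular of
every triangulated `(d - 1)`-sphere with `n` facets), with at most
`C ^ n * n ^ ((d - 3) n / (2 (d + 1)))` elements, of which at most
`C ^ n * n ^ ((d - 3) n / (2 (d + 1)) - 12 f / ((d - 2) d (d + 1)))` have exactly `f` faces with
`d - 3` vertices. -/
theorem Pool.Agent.Results.MP_3de3a3_co.AllDimensions.result (d : ℕ) (hd : 4 ≤ d) :
    ∃ C : ℕ, ∀ n : ℕ, ∃ S : Finset (Finset (Finset (Fin (d * n)))),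
      S.card ^ (2 * (d + 1)) ≤ C ^ n * n ^ ((d - 3) * n) ∧
      (∀ f : ℕ, (S.filter (fun G => (Pool.TSphD.fc (d - 3) G).card = f)).card ^
        (2 * (d - 2) * d * (d + 1)) ≤ C ^ n * n ^ ((d - 3) * (d - 2) * d * n - 24 * f)) ∧
      ∀ F : Finset (Finset (Fin (d * n))), F.card = n → Pool.TSphD.IsMfd d F →
        ∃ G ∈ S, ∃ π : Equiv.Perm (Fin (d * n)), G = F.image (fun σ => σ.image π) :=
  Pool.TSphD.final d hd
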