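import Pool.Agent.Lib.MP_3de3a3_co.M.Final
import Pool.Agent.Lib.MP_3de3a3_co.M.JLow
import Pool.Agent.Lib.MP_3de3a3_co.M.Eu5

/-!
# Normal pseudomanifolds of dimension `d - 1` with `n` facets

The definitions `Pool.TSph.verts`, `Pool.TSph.IsSphere2` are in
`Pool/Agent/Lib/MP_3de3a3_co/Defs.lean`, the definitions `Pool.TSphD.fc`, `Pool.TSphD.lk` in
`Pool/Agent/Lib/MP_3de3a3_co/DDefs.lean`, the definition `Pool.TSphM.IsNor` in
`Pool/Agent/Lib/MP_3de3a3_co/M/Defs.lean` and the definition `Pool.TSphM.chi5` (the Euler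
characteristic for `d = 5`) in `Pool/Agent/Lib/MP_3de3a3_co/M/Eu5.lean`.
-/

set_option autoImplicit false

/-- For every `d ≥ 4`:

(upper bound) there is `C` such that for every `n` there is a set `S` of complexes which contains an
isomorphic copy of every complex with `n` facets that is `IsNor d` (in particular of every
triangulated `(d - 1)`-sphere and of every closed connected triangulated `(d - 1)`-manifold with `n`
facets), with at most `C ^ n * n ^ (c n)` elements, where `c = d (d - 3) / ((d + 1) (d (d - 3) + 4))` for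
`d ≤ 8` and `c = (3 d - 13) / (2 (d - 2) (d + 1))` for `d ≥ 9`;

(lower bound) for every `ε > 0` there are arbitrarily large `n` such that every set `S` of complexes
which contains an isomorphic copy of every complex with `n` facets that is `IsNor d` has at least
`n ^ ((1 / (10 (d - 3)) - ε) n)` elements.

For `d = 5`: there is `C` such that the complexes with `n` facets that are `IsNor 5` and have Euler
characteristic at most `c` fall into at most `C ^ n * n ^ ((n + 4 c) / 10)` isomorphism classes. -/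
theorem Pool.Agent.Results.MP_3de3a3_co.NormalPseudomanifolds.result :
    (∀ d : ℕ, 4 ≤ d →
      (∃ C : ℕ, ∀ n : ℕ, ∃ S : Finset (Finset (Finset (Fin (d * n)))),
        (d ≤ 8 → S.card ^ ((d + 1) * (d * (d - 3) + 4)) ≤ C ^ n * n ^ (d * (d - 3) * n)) ∧
        (9 ≤ d → S.card ^ (2 * (d - 2) * (d + 1)) ≤ C ^ n * n ^ ((3 * d - 13) * n)) ∧
        ∀ F : Finset (Finset (Fin (d * n))), F.card = n → Pool.TSphM.IsNor d F →
          ∃ G ∈ S, ∃ π : Equiv.Perm (Fin (d * n)), G = F.image (fun σ => σ.image π)) ∧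
      (∀ ε : ℝ, 0 < ε → ∀ m : ℕ, ∃ n : ℕ, m ≤ n ∧
        ∀ S : Finset (Finset (Finset (Fin (d * n)))),
          (∀ F : Finset (Finset (Fin (d * n))), F.card = n → Pool.TSphM.IsNor d F →
            ∃ G ∈ S, ∃ π : Equiv.Perm (Fin (d * n)), G = F.image (fun σ => σ.image π)) →
          (n : ℝ) ^ ((1 / (10 * ((d : ℝ) - 3)) - ε) * n) ≤ S.card)) ∧
    ∃ C : ℕ, ∀ n c : ℕ, 0 < n → ∃ S : Finset (Finset (Finset (Fin (5 * n)))),
      S.card ^ 10 ≤ C ^ n * n ^ (n + 4 * c) ∧
      ∀ F : Finset (Finset (Fin (5 * n))), F.card = n → Pool.TSphM.IsNor 5 F →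
        Pool.TSphM.chi5 F ≤ c →
        ∃ G ∈ S, ∃ π : Equiv.Perm (Fin (5 * n)), G = F.image (fun σ => σ.image π) :=
  ⟨fun d hd => ⟨Pool.TSphM.final d hd, fun ε hε m => Pool.TSphM.nor_lower d hd ε hε m⟩,
    Pool.TSphM.final5⟩
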