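import Pool.Agent.Lib.MP_3de3a3_co.H.HFinal

/-!
# Triangulated 3-spheres are super-exponentially rarer than triangulated closed 3-manifolds

The definitions `Pool.TSph.verts`, `Pool.TSph.link`, `Pool.TSph.tris`, `Pool.TSph.IsSphere2` and
`Pool.TSph.IsMfd3` are in `Pool/Agent/Lib/MP_3de3a3_co/Defs.lean`, the definitions
`Pool.TSphH.bdry` and `Pool.TSphH.IsSepMfd` in `Pool/Agent/Lib/MP_3de3a3_co/H/HDefs.lean`.
-/

set_option autoImplicit false

/-- There is `C` such that for every `n` there is a set `S` of complexes with at most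
`C ^ n * n ^ ((1/10 - 1/10^12) n)` elements which contains an isomorphic copy of every closed
connected simplicial 3-manifold with `n` facets in which all 2-spheres with at most five vertices
separate (in particular of every triangulated 3-sphere with `n` facets). -/
theorem Pool.Agent.Results.MP_3de3a3_co.SpheresBelowManifolds.result :
    ∃ C : ℕ, ∀ n : ℕ, ∃ S : Finset (Finset (Finset (Fin (4 * n)))),
      S.card ^ (10 ^ 12) ≤ C ^ n * n ^ ((10 ^ 11 - 1) * n) ∧
      ∀ F : Finset (Finset (Fin (4 * n))), F.card = n → Pool.TSphH.IsSepMfd F →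
        ∃ G ∈ S, ∃ π : Equiv.Perm (Fin (4 * n)), G = F.image (fun σ => σ.image π) :=
  Pool.TSphH.sep_final
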